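import Pool.Agent.H2T.DensP
import Pool.Agent.H2T.WChk

/-!
# Sun's four squares with two smooth terms: the density of the exceptional set
-/

namespace Pool.Agent.Results.MP_af1663_nt.ExceptionalDensity

/-- `n` is representable in the sense of the problem. -/
def Rep (n : ℕ) : Prop :=
  ∃ a b c d x y : ℕ, n = (2 ^ a * 3 ^ b) ^ 2 + (2 ^ c * 5 ^ d) ^ 2 + x ^ 2 + y ^ 2

/-- **Exceptional density.** For every `ε > 0` there is a finite set `P` of primes `q = 3` modulo 4, `q > 10^7`, with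
`q² ∣ 3^(q-1) - 1` and `q² ∣ 5^(q-1) - 1`, such that for all large `N` at most `(∑_{q ∈ P} 1/q + ε) N` of the integers
`n < N` are not representable. -/
theorem result (ε : ℝ) (hε : 0 < ε) : ∃ P : Finset ℕ,
    (∀ q ∈ P, q.Prime ∧ q % 4 = 3 ∧ 10 ^ 7 < q ∧ q ^ 2 ∣ 3 ^ (q - 1) - 1 ∧ q ^ 2 ∣ 5 ^ (q - 1) - 1) ∧
    ∃ N₀ : ℕ, ∀ N : ℕ, N₀ ≤ N →
      (Set.ncard {n : ℕ | n < N ∧ ¬ Rep n} : ℝ) ≤ (∑ q ∈ P, (1 : ℝ) / q + ε) * N := by
  classical
  obtain ⟨P, hP, h⟩ := H2T.density_P hε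
  refine ⟨P, ?_, ?_⟩
  · intro q hq
    obtain ⟨h1, h2, h3, h4⟩ := hP q hq
    refine ⟨h1, h2, ?_, h4.1, h4.2⟩
    by_contra hle
    push Not at hle
    exact H2T.not_DW h1 h2 h3 (by simpa using hle) h4
  obtain ⟨N₀, hN⟩ := Filter.eventually_atTop.1 h
  refine ⟨N₀, fun N hN' => ?_⟩
  refine le_trans ?_ (hN N hN')
  rw [← Set.ncard_coe_finset]
  have hsub : {n : ℕ | n < N ∧ ¬ Rep n} ⊆
      (((Finset.range N).filter (fun n : ℕ => ¬ H2S.Rep n) : Finset ℕ) : Set ℕ) := by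
    rintro n ⟨h1, h3⟩
    rw [Finset.mem_coe, Finset.mem_filter, Finset.mem_range]
    exact ⟨h1, h3⟩
  exact_mod_cast Set.ncard_le_ncard hsub (Finset.finite_toSet _)

end Pool.Agent.Results.MP_af1663_nt.ExceptionalDensity
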