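import Pool.Agent.H2T.LocGlob2
import Pool.Agent.H2T.LocSol

/-!
# Sun's four squares with two smooth terms: a local-global theorem for almost all integers
-/

namespace Pool.Agent.Results.MP_af1663_nt.LocalGlobal

/-- `n` is representable in the sense of the problem. -/
def Rep (n : ℕ) : Prop :=
  ∃ a b c d x y : ℕ, n = (2 ^ a * 3 ^ b) ^ 2 + (2 ^ c * 5 ^ d) ^ 2 + x ^ 2 + y ^ 2

/-- `q` is a Wieferich prime to both bases 3 and 5. -/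
def DoublyWieferich (q : ℕ) : Prop := q ^ 2 ∣ 3 ^ (q - 1) - 1 ∧ q ^ 2 ∣ 5 ^ (q - 1) - 1

/-- The local condition on the remainder `z` for the finite set `Q` of primes: `z` is 1 modulo 4 or 2 modulo 8; `z` is
prime to 3 or divisible by 9 and not by 27; every `q ∈ Q` does not divide `z`, or divides it exactly twice, and the
latter is only allowed if `q` is not doubly Wieferich. -/
def Good (Q : Finset ℕ) (z : ℤ) : Prop :=
  (z % 4 = 1 ∨ z % 8 = 2) ∧ (z % 3 ≠ 0 ∨ (z % 9 = 0 ∧ z % 27 ≠ 0)) ∧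
    ∀ q ∈ Q, ¬ (q : ℤ) ∣ z ∨ (¬ DoublyWieferich q ∧ (q : ℤ) ^ 2 ∣ z ∧ ¬ (q : ℤ) ^ 3 ∣ z)

/-- `n` is unobstructed for `Q`: some `n - (2^a 3^b)^2 - (2^c 5^d)^2` with `b ≥ 2` (of any sign) satisfies the local
condition. -/
def Unobstructed (Q : Finset ℕ) (n : ℕ) : Prop :=
  ∃ a b c d : ℕ, 2 ≤ b ∧ Good Q ((n : ℤ) - (2 ^ a * 3 ^ b) ^ 2 - (2 ^ c * 5 ^ d) ^ 2)

private theorem good_iff (Q : Finset ℕ) (z : ℤ) : Good Q z ↔ H2T.GoodZ2 Q z := by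
  unfold Good H2T.GoodZ2 H2T.GoodQ
  simp only [Nat.cast_pow]
  exact Iff.rfl

private theorem unob_iff (Q : Finset ℕ) (n : ℕ) :
    Unobstructed Q n ↔ ∃ a b c d : ℕ, 2 ≤ b ∧ H2T.GoodZ2 Q ((n : ℤ) - H2S.kk a b c d) := by
  unfold Unobstructed
  have key : ∀ a b c d : ℕ, (n : ℤ) - (H2S.kk a b c d : ℕ) = (n : ℤ) - (2 ^ a * 3 ^ b) ^ 2 - (2 ^ c * 5 ^ d) ^ 2 := by
    intro a b c d
    unfold H2S.kk
    push_cast
    ring
  constructor
  · rintro ⟨a, b, c, d, hb, hg⟩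
    exact ⟨a, b, c, d, hb, by rw [key, ← good_iff]; exact hg⟩
  · rintro ⟨a, b, c, d, hb, hg⟩
    exact ⟨a, b, c, d, hb, by rw [key, ← good_iff] at hg; exact hg⟩

private theorem unob_congr {Q : Finset ℕ} {n m : ℕ}
    (h : n % (216 * ∏ q ∈ Q, q ^ 3) = m % (216 * ∏ q ∈ Q, q ^ 3)) : Unobstructed Q n → Unobstructed Q m := by
  rw [unob_iff, unob_iff]
  rintro ⟨a, b, c, d, hb, hg⟩
  refine ⟨a, b, c, d, hb, ?_⟩
  have h1 : ((216 * ∏ q ∈ Q, q ^ 3 : ℕ) : ℤ) ∣ (n : ℤ) - m :=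
    Nat.modEq_iff_dvd.1 (show m ≡ n [MOD 216 * ∏ q ∈ Q, q ^ 3] from h.symm)
  have h2 : ((n : ℤ) - H2S.kk a b c d) - ((m : ℤ) - H2S.kk a b c d) = (n : ℤ) - m := by ring
  have h216 : (216 : ℤ) ∣ (n : ℤ) - m := by
    refine dvd_trans ?_ h1
    push_cast
    exact Dvd.intro _ rfl
  refine (H2T.good_congr2 Q (z := (n : ℤ) - H2S.kk a b c d) (w := (m : ℤ) - H2S.kk a b c d) ?_ ?_ ?_).1 hg
  · rw [h2]
    exact (show (8 : ℤ) ∣ 216 by norm_num).trans h216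
  · rw [h2]
    exact (show (27 : ℤ) ∣ 216 by norm_num).trans h216
  · intro q hq
    rw [h2]
    refine dvd_trans ?_ h1
    have : q ^ 3 ∣ 216 * ∏ q ∈ Q, q ^ 3 := (Finset.dvd_prod_of_mem (fun q => q ^ 3) hq).mul_left _
    exact_mod_cast this

/-- **Local-global theorem.** For every `ε > 0` there is a finite set `Q` of primes `q > 3`, `q = 3` modulo 4, such that
being unobstructed for `Q` only depends on `n` modulo `216 ∏ q³`, every `n` not divisible by 4 is unobstructed for `Q` if no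
`q ∈ Q` is doubly Wieferich, and for all large `N` at most `ε N` of the unobstructed integers `n < N` are not representable. -/
theorem result (ε : ℝ) (hε : 0 < ε) : ∃ Q : Finset ℕ, (∀ q ∈ Q, q.Prime ∧ q % 4 = 3 ∧ 3 < q) ∧
    (∀ n m : ℕ, n % (216 * ∏ q ∈ Q, q ^ 3) = m % (216 * ∏ q ∈ Q, q ^ 3) → (Unobstructed Q n ↔ Unobstructed Q m)) ∧
    ((∀ q ∈ Q, ¬ DoublyWieferich q) → ∀ n : ℕ, ¬ 4 ∣ n → Unobstructed Q n) ∧
    ∃ N₀ : ℕ, ∀ N : ℕ, N₀ ≤ N →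
      (Set.ncard {n : ℕ | n < N ∧ Unobstructed Q n ∧ ¬ Rep n} : ℝ) ≤ ε * N := by
  classical
  obtain ⟨Q, hQ, h⟩ := H2T.local_global2 hε
  refine ⟨Q, hQ, fun n m hnm => ⟨unob_congr hnm, unob_congr hnm.symm⟩, ?_, ?_⟩
  · intro hW n hn
    rw [unob_iff]
    exact H2T.loc_sol Q (fun q hq => ⟨(hQ q hq).1, (hQ q hq).2.1, (hQ q hq).2.2, hW q hq⟩) n hn
  obtain ⟨N₀, hN⟩ := Filter.eventually_atTop.1 h
  refine ⟨N₀, fun N hN' => ?_⟩
  refine le_trans ?_ (hN N hN')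
  rw [← Set.ncard_coe_finset]
  have hsub : {n : ℕ | n < N ∧ Unobstructed Q n ∧ ¬ Rep n} ⊆
      (((Finset.range N).filter (fun n : ℕ => ¬ H2S.Rep n ∧ ∃ a b c d : ℕ, 2 ≤ b ∧
        H2T.GoodZ2 Q ((n : ℤ) - H2S.kk a b c d)) : Finset ℕ) : Set ℕ) := by
    rintro n ⟨h1, h2, h3⟩
    rw [Finset.mem_coe, Finset.mem_filter, Finset.mem_range]
    rw [unob_iff] at h2
    exact ⟨h1, h3, h2⟩
  exact_mod_cast Set.ncard_le_ncard hsub (Finset.finite_toSet _)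

end Pool.Agent.Results.MP_af1663_nt.LocalGlobal
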