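import Pool.Agent.H2S.Dens

/-!
# Sun's four squares with two smooth terms: at least 98 percent of all integers are representable
-/

namespace Pool.Agent.Results.MP_af1663_nt.NinetyEightPercent

/-- `n` is representable in the sense of the problem. -/
def Rep (n : ℕ) : Prop :=
  ∃ a b c d x y : ℕ, n = (2 ^ a * 3 ^ b) ^ 2 + (2 ^ c * 5 ^ d) ^ 2 + x ^ 2 + y ^ 2

/-- **Density.** For all large `N`, at least `0.98 N` of the integers `n < N` are representable. -/
theorem result : ∃ N₀ : ℕ, ∀ N : ℕ, N₀ ≤ N →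
    (49 / 50 : ℝ) * N ≤ (Set.ncard {n : ℕ | n < N ∧ Rep n} : ℝ) := by
  classical
  obtain ⟨N₀, hN⟩ := Filter.eventually_atTop.1 H2S.density
  refine ⟨N₀, fun N hN' => ?_⟩
  have h1 := hN N hN'
  have h2 : {n : ℕ | n < N ∧ Rep n} = (((Finset.range N).filter (fun n : ℕ => H2S.Rep n) : Finset ℕ) : Set ℕ) := by
    ext n
    simp only [Set.mem_ofPred_eq, Finset.coe_filter, Finset.mem_range]
    exact Iff.rfl
  rw [h2, Set.ncard_coe_finset]
  have h3 := Finset.card_filter_add_card_filter_not (s := Finset.range N) (fun n : ℕ => H2S.Rep n)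
  rw [Finset.card_range] at h3
  have h4 : (((Finset.range N).filter (fun n : ℕ => H2S.Rep n)).card : ℝ) +
      (((Finset.range N).filter (fun n : ℕ => ¬ H2S.Rep n)).card : ℝ) = N := by exact_mod_cast h3
  have h5 : (((Finset.range N).filter (fun n : ℕ => ¬ H2S.Rep n)).card : ℝ) ≤ 0.02 * N := by
    convert h1 using 2
  linarith

end Pool.Agent.Results.MP_af1663_nt.NinetyEightPercent
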